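import Pool.Agent.H55.CU.Targets

/-!
# Row MAS (board cou_modules)
-/

set_option autoImplicit false

open Finset Pool.Agent.H55.CU

namespace Pool.Agent.H12.CU

theorem shift_eq (X : ℕ → ℝ) (c n : ℕ) :
    ∑ a ∈ range n, (if c ≤ a then X (a - c) else 0) = ∑ i ∈ range (n - c), X i := by
  induction n with
  | zero => simp
  | succ n ih =>
    rw [sum_range_succ, ih]
    by_cases h : c ≤ n
    · rw [if_pos h, Nat.succ_sub h, sum_range_succ]
    · rw [if_neg h, add_zero]
      have h1 : n - c = 0 := by omega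
      have h2 : n + 1 - c = 0 := by omega
      rw [h1, h2]

theorem shift_le (X : ℕ → ℝ) (hX : ∀ a, 0 ≤ X a) (c n : ℕ) :
    ∑ a ∈ range n, (if c ≤ a then X (a - c) else 0) ≤ ∑ a ∈ range n, X a := by
  rw [shift_eq]
  apply sum_le_sum_of_subset_of_nonneg
  · exact range_subset_range.2 (by omega)
  · intro i _ _
    exact hX i

theorem pf_MAS : T_MAS := by
  intro J g q F X hJ hg hq hF hX hA hR n
  set A : ℝ := ∑ a ∈ range n, F a with hAdef
  set S : ℝ := ∑ a ∈ range n, X a with hSdef
  have hS0 : 0 ≤ S := sum_nonneg fun a _ => hX a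
  have hA0 : 0 ≤ A := sum_nonneg fun a _ => hF a
  have h1 : S ≤ A + ∑ a ∈ range n, ∑ b ∈ range (a + 1), ∑ j ∈ Icc J (2 * J),
      (if b + j ≤ a then F b * g * X (a - b - j) else 0) := by
    rw [hAdef, hSdef, ← sum_add_distrib]
    exact sum_le_sum fun a _ => hR a
  have hnn : ∀ a b j : ℕ, 0 ≤ (if b + j ≤ a then F b * g * X (a - b - j) else 0) := by
    intro a b j
    split_ifs
    · exact mul_nonneg (mul_nonneg (hF b) hg) (hX _)
    · exact le_refl 0
  have h2 : ∑ a ∈ range n, ∑ b ∈ range (a + 1), ∑ j ∈ Icc J (2 * J),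
      (if b + j ≤ a then F b * g * X (a - b - j) else 0) ≤
      ∑ a ∈ range n, ∑ b ∈ range n, ∑ j ∈ Icc J (2 * J),
      (if b + j ≤ a then F b * g * X (a - b - j) else 0) := by
    apply sum_le_sum
    intro a ha
    apply sum_le_sum_of_subset_of_nonneg
    · exact range_subset_range.2 (by have := mem_range.1 ha; omega)
    · intro b _ _
      exact sum_nonneg fun j _ => hnn a b j
  have h3 : ∑ a ∈ range n, ∑ b ∈ range n, ∑ j ∈ Icc J (2 * J),
      (if b + j ≤ a then F b * g * X (a - b - j) else 0) =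
      ∑ b ∈ range n, ∑ j ∈ Icc J (2 * J), ∑ a ∈ range n,
      (if b + j ≤ a then F b * g * X (a - b - j) else 0) := by
    rw [sum_comm]
    apply sum_congr rfl
    intro b _
    rw [sum_comm]
  have h4 : ∀ b j : ℕ, ∑ a ∈ range n, (if b + j ≤ a then F b * g * X (a - b - j) else 0) ≤
      F b * g * S := by
    intro b j
    have e : ∑ a ∈ range n, (if b + j ≤ a then F b * g * X (a - b - j) else 0) =
        F b * g * ∑ a ∈ range n, (if b + j ≤ a then X (a - (b + j)) else 0) := by
      rw [mul_sum]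
      apply sum_congr rfl
      intro a _
      by_cases h : b + j ≤ a
      · rw [if_pos h, if_pos h, Nat.sub_sub]
      · rw [if_neg h, if_neg h, mul_zero]
    rw [e]
    exact mul_le_mul_of_nonneg_left (shift_le X hX _ n) (mul_nonneg (hF b) hg)
  have h5 : ∑ b ∈ range n, ∑ j ∈ Icc J (2 * J), ∑ a ∈ range n,
      (if b + j ≤ a then F b * g * X (a - b - j) else 0) ≤ A * (((J : ℝ) + 1) * g) * S := by
    calc ∑ b ∈ range n, ∑ j ∈ Icc J (2 * J), ∑ a ∈ range n,
          (if b + j ≤ a then F b * g * X (a - b - j) else 0)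
        ≤ ∑ b ∈ range n, ∑ j ∈ Icc J (2 * J), F b * g * S :=
          sum_le_sum fun b _ => sum_le_sum fun j _ => h4 b j
      _ = A * (((J : ℝ) + 1) * g) * S := by
          have hc : ((Icc J (2 * J)).card : ℝ) = (J : ℝ) + 1 := by
            rw [Nat.card_Icc]
            have : 2 * J + 1 - J = J + 1 := by omega
            rw [this]
            push_cast
            ring
          simp only [sum_const, nsmul_eq_mul, hc]
          rw [hAdef, sum_mul, sum_mul]
          apply sum_congr rfl
          intro b _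
          ring
  have h6 : A * (((J : ℝ) + 1) * g) * S ≤ S / 2 := by
    have h7 : A * (((J : ℝ) + 1) * g) ≤ 1 / 2 :=
      (mul_le_mul_of_nonneg_left hq hA0).trans (hA n)
    calc A * (((J : ℝ) + 1) * g) * S ≤ 1 / 2 * S := mul_le_mul_of_nonneg_right h7 hS0
      _ = S / 2 := by ring
  have h8 : S ≤ A + S / 2 := by
    calc S ≤ _ := h1
      _ ≤ A + S / 2 := by
        have := h2.trans (h3.le.trans (h5.trans h6))
        linarith
  linarith

end Pool.Agent.H12.CU
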